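import Pool.Agent.H.MP_3f621b_al.CPart

set_option autoImplicit false

namespace Pool.Agent.Results.MP_3f621b_al.Q1

open Pool.Agent.H.MP_3f621b_al

universe u

/-- c-conjugacy in the symmetric inverse monoid of an arbitrary set. -/
theorem result (X : Type u) (a b : X ≃. X) :
    CConj a b ↔
      (∀ n : ℕ∞, endless a n = endless b n) ∧ double a = double b ∧
        ∀ n : ℕ∞, 2 ≤ n → ending a n = ending b n :=
  cconj_iff

end Pool.Agent.Results.MP_3f621b_al.Q1
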