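import Pool.Agent.H.MP_3f621b_al.PPart

set_option autoImplicit false

namespace Pool.Agent.Results.MP_3f621b_al.Q2

open Pool.Agent.H.MP_3f621b_al

universe u

/-- p-conjugacy in the symmetric inverse monoid of an arbitrary set. -/
theorem result (X : Type u) (a b : X ≃. X) :
    PConj a b ↔
      (∀ (s e : Prop) (n : ℕ∞), ¬ (s ∧ e) → shape a s e n = shape b s e n) ∧
        ∀ i j : ℕ, 2 ≤ i →
          chains a i j ≤ chains b (i - 1) (j + 1) ∧ chains b i j ≤ chains a (i - 1) (j + 1) :=
  pconj_iff

end Pool.Agent.Results.MP_3f621b_al.Q2
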